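import Pool.Agent.V7H15.SSE.Graph

set_option autoImplicit false

/-!
# The language and the counting argument
-/

namespace Pool.Agent.V7H15.SSE

open Classical

/-- The words `1^k 0 y` with the following property. Let `m = ⌊|y| / (2 k + 1)⌋` and cut `y` into
pieces of length `m` (and a rest). Then the pieces number `1, 3, 5, …, 2 k - 1` are equal (the first
piece has the number `0`). -/
def Repeats : Set (List Bool) :=
  {x | ∃ (k : ℕ) (y : List Bool), x = List.replicate k true ++ false :: y ∧
    ∀ i < k, ∀ a < y.length / (2 * k + 1),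
      y[(2 * i + 1) * (y.length / (2 * k + 1)) + a]? = y[y.length / (2 * k + 1) + a]?}

/-- the word with the contents `W i` of the pieces -/
def body (k m : ℕ) (W : ℕ → ℕ → Bool) (z : ℕ) : Bool :=
  decide (z / m % 2 = 1 ∧ z / m / 2 < k) && W (z / m / 2) (z % m)

def inp (n k m : ℕ) (W : ℕ → ℕ → Bool) : List Bool :=
  List.replicate k true ++ false :: (List.range (n - k - 1)).map (body k m W)

theorem inp_length {n k m : ℕ} (h : k + 1 ≤ n) (W : ℕ → ℕ → Bool) : (inp n k m W).length = n := by
  unfold inp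
  simp
  omega

theorem inp_congr {n k m : ℕ} (W W' : ℕ → ℕ → Bool) (p : ℕ)
    (h : ∀ i, k + 1 ≤ p → (p - k - 1) / m = 2 * i + 1 → W i = W' i) :
    (inp n k m W)[p]? = (inp n k m W')[p]? := by
  unfold inp
  by_cases h1 : p < k
  · rw [List.getElem?_append_left (by simpa using h1), List.getElem?_append_left (by simpa using h1)]
  · rw [List.getElem?_append_right (by simpa using h1),
      List.getElem?_append_right (by simpa using h1)]
    simp only [List.length_replicate]
    by_cases h2 : p = k
    · subst h2; simp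
    · obtain ⟨z, hz⟩ : ∃ z, p - k = z + 1 := ⟨p - k - 1, by omega⟩
      rw [hz, List.getElem?_cons_succ, List.getElem?_cons_succ, List.getElem?_map,
        List.getElem?_map]
      have hz' : z = p - k - 1 := by omega
      by_cases h3 : z < n - k - 1
      · rw [List.getElem?_range h3]
        simp only [Option.map_some, Option.some.injEq]
        unfold body
        by_cases h4 : z / m % 2 = 1 ∧ z / m / 2 < k
        · have : W (z / m / 2) = W' (z / m / 2) := h _ (by omega) (by rw [← hz']; omega)
          rw [this]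
        · simp [h4]
      · rw [List.getElem?_eq_none (by simpa using h3)]; rfl

theorem body_piece {k m : ℕ} (W : ℕ → ℕ → Bool) {i a : ℕ} (hi : i < k) (ha : a < m) :
    body k m W ((2 * i + 1) * m + a) = W i a := by
  have h1 : ((2 * i + 1) * m + a) / m = 2 * i + 1 := by
    rw [Nat.add_comm, Nat.add_mul_div_right _ _ (by omega), Nat.div_eq_of_lt ha, Nat.zero_add]
  have h2 : ((2 * i + 1) * m + a) % m = a := by
    rw [Nat.add_comm, Nat.add_mul_mod_self_right, Nat.mod_eq_of_lt ha]
  unfold body
  rw [h1, h2]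
  have h3 : (2 * i + 1) / 2 = i := by omega
  have h4 : (2 * i + 1) % 2 = 1 := by omega
  rw [h3]
  simp [h4, hi]

theorem get_piece {n k m : ℕ} (hm : (n - k - 1) / (2 * k + 1) = m) (W : ℕ → ℕ → Bool) {i a : ℕ}
    (hi : i < k) (ha : a < m) :
    ((List.range (n - k - 1)).map (body k m W))[(2 * i + 1) * m + a]? = some (W i a) := by
  have h1 : (2 * k + 1) * m ≤ n - k - 1 := by
    rw [← hm]; exact Nat.mul_div_le _ _
  have h2 : (2 * i + 1) * m + a < n - k - 1 := by
    have : (2 * i + 2) * m ≤ (2 * k + 1) * m := Nat.mul_le_mul_right _ (by omega)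
    have e : (2 * i + 2) * m = (2 * i + 1) * m + m := by ring
    omega
  rw [List.getElem?_map, List.getElem?_range h2, Option.map_some, body_piece W hi ha]

theorem inp_mem {n k m : ℕ} (hm : (n - k - 1) / (2 * k + 1) = m) (w : ℕ → Bool) :
    inp n k m (fun _ => w) ∈ Repeats := by
  refine ⟨k, _, rfl, ?_⟩
  intro i hi a ha
  simp only [List.length_map, List.length_range, hm] at ha ⊢
  rw [get_piece hm _ hi ha]
  have := get_piece hm (fun _ => w) (i := 0) (a := a) (by omega) ha
  simp only [Nat.mul_zero, Nat.zero_add, Nat.one_mul] at this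
  rw [this]

theorem header_unique : ∀ (k k' : ℕ) (y y' : List Bool),
    List.replicate k true ++ false :: y = List.replicate k' true ++ false :: y' → k = k' ∧ y = y' := by
  intro k
  induction k with
  | zero =>
    intro k' y y' h
    cases k' with
    | zero => simpa using h
    | succ k' => simp [List.replicate_succ] at h
  | succ k ih =>
    intro k' y y' h
    cases k' with
    | zero => simp [List.replicate_succ] at h
    | succ k' =>
      simp only [List.replicate_succ, List.cons_append, List.cons.injEq, true_and] at h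
      obtain ⟨h1, h2⟩ := ih k' y y' h
      exact ⟨by omega, h2⟩

theorem inp_not_mem {n k m : ℕ} (hk : 2 ≤ k) (hm : (n - k - 1) / (2 * k + 1) = m)
    (w w' : ℕ → Bool) (j a : ℕ) (hj : j < k) (ha : a < m) (hw : w a ≠ w' a) :
    inp n k m (fun i => if i = j then w' else w) ∉ Repeats := by
  rintro ⟨k', y, hx, hy⟩
  obtain ⟨rfl, hy'⟩ := header_unique _ _ _ _ hx
  have hlen : y.length / (2 * k + 1) = m := by
    rw [← hy']; simpa using hm
  have h0 := get_piece hm (fun i => if i = j then w' else w) (i := 0) (a := a) (by omega) ha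
  simp only [Nat.mul_zero, Nat.zero_add, Nat.one_mul] at h0
  by_cases hj0 : j = 0
  · have h1 := get_piece hm (fun i => if i = j then w' else w) (i := 1) (a := a) (by omega) ha
    have h2 := hy 1 (by omega) a (by rw [hlen]; exact ha)
    rw [hlen, ← hy', h0, h1] at h2
    rw [if_neg (by omega), if_pos hj0.symm] at h2
    exact hw (Option.some.inj h2)
  · have h1 := get_piece hm (fun i => if i = j then w' else w) (i := j) (a := a) hj ha
    have h2 := hy j hj a (by rw [hlen]; exact ha)
    rw [hlen, ← hy', h0, h1] at h2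
    rw [if_pos rfl, if_neg (by omega)] at h2
    exact hw (Option.some.inj h2).symm

/-- the piece containing a position -/
theorem piece_seg {k m j t i p : ℕ} (hm : 0 < m) (ht : t < m) (hp : k + 1 ≤ p)
    (hi : (p - k - 1) / m = 2 * i + 1) : ((p : ℤ) ∈ seg (k + 1) m j t) ↔ i = j := by
  have h1 : m * (2 * i + 1) ≤ p - k - 1 := by rw [← hi]; exact Nat.mul_div_le _ _
  have h2 : p - k - 1 < m * (2 * i + 2) := by
    have := Nat.lt_mul_div_succ (p - k - 1) hm
    rwa [hi] at this
  unfold seg
  simp only [Set.mem_ofPred_eq, Nat.cast_le, Nat.cast_lt]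
  constructor
  · rintro ⟨g1, g2⟩
    by_contra hne
    rcases Nat.lt_or_gt_of_ne hne with hlt | hgt
    · have : m * (2 * i + 2) ≤ m * (2 * j) := Nat.mul_le_mul_left _ (by omega)
      have e : 2 * j * m = m * (2 * j) := by ring
      omega
    · have : m * (2 * j + 3) ≤ m * (2 * i + 1) := Nat.mul_le_mul_left _ (by omega)
      have e : 2 * (j + 1) * m + m = m * (2 * j + 3) := by ring
      omega
  · rintro rfl
    have e : 2 * i * m + m = m * (2 * i + 1) := by ring
    have e' : 2 * (i + 1) * m = m * (2 * i + 2) := by ring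
    omega

variable {M : Machine}

theorem initial_mix {n k m j t : ℕ} (hm : 0 < m) (ht : t < m) (w w' : ℕ → Bool) :
    (initial M (inp n k m (fun i => if i = j then w' else w))).tape =
      mixTape (seg (k + 1) m j t) (initial M (inp n k m (fun _ => w))).tape
        (initial M (inp n k m (fun _ => w'))).tape := by
  funext z
  unfold mixTape initial
  simp only
  by_cases hz : 0 ≤ z
  · rw [if_pos hz]
    obtain ⟨p, rfl⟩ := Int.eq_ofNat_of_zero_le hz
    simp only [Int.toNat_natCast]
    by_cases hs : (p : ℤ) ∈ seg (k + 1) m j t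
    · rw [if_pos hs]
      congr 1
      apply inp_congr
      intro i h1 h2
      have := (piece_seg hm ht h1 h2).mp hs
      rw [if_pos this]
    · rw [if_neg hs]
      congr 1
      apply inp_congr
      intro i h1 h2
      rw [if_neg]
      intro hij
      exact hs ((piece_seg hm ht h1 h2).mpr hij)
  · rw [if_neg hz]
    split_ifs <;> rfl

/-- the counting argument -/
theorem core {ε η δ : ℝ} (k : ℕ) (hk : 2 ≤ k) (hkey : k * η < (k - 1) * (1 - ε))
    (n m T S N : ℕ) (hn : k + 1 ≤ n) (hm : 0 < m) (hnm : (n - k - 1) / (2 * k + 1) = m)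
    (hfin : Finite M.Q) (hQ : Nat.card M.Q ≤ 2 ^ S)
    (hyes : ∀ x : List Bool, x.length = n → x ∈ Repeats →
      ∃ T' ≤ T, ∃ O, Prints M x T' O ∧ Yes ε δ O ∧ ∀ v d, Item.size v d ∈ O → v ≤ N)
    (hno : ∀ x : List Bool, x.length = n → x ∉ Repeats →
      ∀ T' O, Prints M x T' O → No η δ O) :
    2 ^ m ≤ k * m * (4 * 2 ^ S + 1) ^ (T / m) * (N + 1) ^ 2 := by
  by_contra hcon
  push Not at hcon
  have hQf : Fintype M.Q := Fintype.ofFinite M.Q
  -- extension of words
  let e : (Fin m → Bool) → ℕ → Bool := fun w a => if h : a < m then w ⟨a, h⟩ else false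
  have hdata : ∀ w : Fin m → Bool, ∃ (l : List (Rec M)) (f : Config M) (n' d t j : ℕ),
      Run (initial M (inp n k m (fun _ => e w))) l f ∧ M.halt f.q ∧
      t < m ∧ j < k ∧ (tr (seg (k + 1) m j t) l).length ≤ T / m ∧ n' < N + 1 ∧ d < N + 1 ∧
      (∀ a b, Item.size a b ∈ printed l → a = n' ∧ b = d) ∧
      (∀ O' : Set Item, (∀ r ∈ l, r.p ∉ seg (k + 1) m j t → ∀ it, r.o = some it → it ∈ O') →
        (∀ a b, Item.size a b ∈ O' → a = n' ∧ b = d) → ¬ No η δ O') := by
    intro w
    obtain ⟨T', hT', O, hO, hY, hN⟩ := hyes _ (inp_length hn _) (inp_mem hnm (e w))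
    exact good k (by omega) hkey (k + 1) m T N hm _ T' O hT' hO hY hN
  choose l f n' d t j h1 h2 h3 h4 h5 h6 h7 h8 h9 using hdata
  let F : (Fin m → Bool) → Fin k × Fin m × (Fin (T / m) → Option (M.Q × Fin 4)) ×
      Fin (N + 1) × Fin (N + 1) := fun w =>
    (⟨j w, h4 w⟩, ⟨t w, h3 w⟩, ctr (T / m) (k + 1) m (j w) (t w) (l w), ⟨n' w, h6 w⟩, ⟨d w, h7 w⟩)
  have hcard : Fintype.card (Fin k × Fin m × (Fin (T / m) → Option (M.Q × Fin 4)) ×
      Fin (N + 1) × Fin (N + 1)) < Fintype.card (Fin m → Bool) := by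
    simp only [Fintype.card_prod, Fintype.card_fin, Fintype.card_fun, Fintype.card_option,
      Fintype.card_bool]
    refine lt_of_le_of_lt ?_ hcon
    have hq : Fintype.card M.Q ≤ 2 ^ S := by rw [← Nat.card_eq_fintype_card]; exact hQ
    have : (Fintype.card M.Q * 4 + 1) ^ (T / m) ≤ (4 * 2 ^ S + 1) ^ (T / m) :=
      Nat.pow_le_pow_left (by omega) _
    calc k * (m * ((Fintype.card M.Q * 4 + 1) ^ (T / m) * ((N + 1) * (N + 1))))
        ≤ k * (m * ((4 * 2 ^ S + 1) ^ (T / m) * ((N + 1) * (N + 1)))) :=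
          Nat.mul_le_mul_left _ (Nat.mul_le_mul_left _ (Nat.mul_le_mul_right _ this))
      _ = k * m * (4 * 2 ^ S + 1) ^ (T / m) * (N + 1) ^ 2 := by ring
  obtain ⟨w, w', hne, hF⟩ := Fintype.exists_ne_map_eq_of_card_lt F hcard
  simp only [F, Prod.mk.injEq, Fin.mk.injEq] at hF
  obtain ⟨ej, et, ectr, en, ed⟩ := hF
  obtain ⟨a, ha⟩ := Function.ne_iff.mp hne
  have hea : e w a ≠ e w' a := by
    simp only [e, a.isLt, dif_pos]
    exact ha
  rw [← ej, ← et] at ectr
  have htr : tr (seg (k + 1) m (j w) (t w)) (l w) = tr (seg (k + 1) m (j w) (t w)) (l w') := by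
    refine ctr_inj (T / m) (k + 1) m (j w) (t w) _ _ (run_move (h1 w)) (run_move (h1 w')) (h5 w)
      ?_ ectr
    have := h5 w'
    rw [← ej, ← et] at this
    exact this
  obtain ⟨l', f', g1, g2, g3, g4⟩ := mix (seg (k + 1) m (j w) (t w)) _ _ _ _ (l w) (l w')
    (h1 w) (h1 w') rfl rfl htr
  have hstart : (⟨(initial M (inp n k m (fun _ => e w))).q,
      (initial M (inp n k m (fun _ => e w))).p,
      mixTape (seg (k + 1) m (j w) (t w)) (initial M (inp n k m (fun _ => e w))).tape
        (initial M (inp n k m (fun _ => e w'))).tape⟩ : Config M) =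
      initial M (inp n k m (fun i => if i = j w then e w' else e w)) := by
    rw [← initial_mix hm (h3 w)]
    rfl
  rw [hstart] at g1
  have hhalt : M.halt f'.q := by
    rcases g2 with h | h
    · rw [h]; exact h2 w
    · rw [h]; exact h2 w'
  have hNo := hno _ (inp_length hn _)
    (inp_not_mem hk hnm (e w) (e w') (j w) a (h4 w) a.isLt hea) (moves l') (printed l')
    ⟨l', f', g1, hhalt, rfl, rfl⟩
  refine h9 w (printed l') ?_ ?_ hNo
  · intro r hr hA it hit
    exact ⟨r, g3 r hr hA, hit⟩
  · intro a b hab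
    obtain ⟨r, hr, hit⟩ := hab
    rcases g4 r hr with h | h
    · exact h8 w a b ⟨r, h, hit⟩
    · have := h8 w' a b ⟨r, h, hit⟩
      rw [en, ed]; exact this

end Pool.Agent.V7H15.SSE
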