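import Pool.Agent.V7H15.SSE.Machine

set_option autoImplicit false

/-!
# Counting crossings
-/

namespace Pool.Agent.V7H15.SSE

open Classical

variable {M : Machine}

/-- the segment number `j` for the shift `t` -/
def seg (off m j t : ℕ) : Set ℤ :=
  {z | ((off + 2 * j * m + t : ℕ) : ℤ) ≤ z ∧ z < ((off + 2 * (j + 1) * m + t : ℕ) : ℤ)}

theorem run_move {c f : Config M} {l : List (Rec M)} (h : Run c l f) :
    ∀ r ∈ l, |r.p' - r.p| ≤ 1 := by
  induction h with
  | nil c => intro r hr; simp at hr
  | @cons c c' f r l hs hr ih =>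
    intro r' hr'
    rcases List.mem_cons.mp hr' with rfl | hr'
    · obtain ⟨h1, h2, h3, h4, h5⟩ := hs
      rw [h1, h3]; exact h4
    · exact ih r' hr'

/-- the shift for which a record crosses a border -/
noncomputable def key (off m : ℕ) (r : Rec M) : ℤ := (max r.p r.p' - off) % (2 * m : ℕ)

theorem cross_border {a b x y : ℤ} (hxy : |y - x| ≤ 1)
    (h : ¬ ((a ≤ x ∧ x < b) ↔ (a ≤ y ∧ y < b))) :
    (max x y = a ∨ max x y = b) ∧ (y = a ∨ y = a - 1 ∨ y = b - 1 ∨ y = b) := by
  have h1 := abs_le.mp hxy
  rcases le_total x y with hle | hle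
  · rw [max_eq_right hle]
    omega
  · rw [max_eq_left hle]
    omega

theorem cross_key (off m j t : ℕ) (ht : t < m) (r : Rec M) (hr : |r.p' - r.p| ≤ 1)
    (h : ¬ (r.p ∈ seg off m j t ↔ r.p' ∈ seg off m j t)) : key off m r = (t : ℤ) := by
  have h1 := (cross_border hr h).1
  unfold key
  have hm : (t : ℤ) < ((2 * m : ℕ) : ℤ) := by exact_mod_cast (by omega : t < 2 * m)
  have ht0 : (0 : ℤ) ≤ t := Int.natCast_nonneg t
  rcases h1 with h1 | h1
  · rw [h1]
    have : (((off + 2 * j * m + t : ℕ) : ℤ) - off) = t + j * ((2 * m : ℕ) : ℤ) := by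
      push_cast; ring
    rw [this, Int.add_mul_emod_self_right, Int.emod_eq_of_lt ht0 hm]
  · rw [h1]
    have : (((off + 2 * (j + 1) * m + t : ℕ) : ℤ) - off) = t + (j + 1) * ((2 * m : ℕ) : ℤ) := by
      push_cast; ring
    rw [this, Int.add_mul_emod_self_right, Int.emod_eq_of_lt ht0 hm]

/-- the transcript is at most as long as the number of moves with the right key -/
theorem tr_length (off m j t : ℕ) (ht : t < m) (l : List (Rec M))
    (hl : ∀ r ∈ l, |r.p' - r.p| ≤ 1) :
    (tr (seg off m j t) l).length ≤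
      l.countP (fun r : Rec M => decide (r.p' ≠ r.p ∧ key off m r = (t : ℤ))) := by
  induction l with
  | nil => simp [tr_nil]
  | cons r l ih =>
    have ih' := ih (fun r' hr' => hl r' (List.mem_cons_of_mem _ hr'))
    rw [List.countP_cons]
    by_cases hx : (r.p ∈ seg off m j t ↔ r.p' ∈ seg off m j t)
    · rw [tr_cons_stay _ r l hx]
      omega
    · rw [tr_cons_cross _ r l hx]
      have hk := cross_key off m j t ht r (hl r List.mem_cons_self) hx
      have hne : r.p' ≠ r.p := by
        intro h
        exact hx (by rw [h])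
      have hd : decide (r.p' ≠ r.p ∧ key off m r = (t : ℤ)) = true := by
        rw [decide_eq_true_eq]; exact ⟨hne, hk⟩
      simp only [List.length_cons, hd, if_true]
      omega

theorem sum_countP (off m : ℕ) (l : List (Rec M)) :
    ∑ t ∈ Finset.range m, l.countP (fun r : Rec M => decide (r.p' ≠ r.p ∧ key off m r = (t : ℤ))) ≤
      moves l := by
  induction l with
  | nil => simp [moves]
  | cons r l ih =>
    have hthis : ∑ t ∈ Finset.range m,
        (if decide (r.p' ≠ r.p ∧ key off m r = (t : ℤ)) = true then 1 else 0) ≤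
        if decide (r.p' ≠ r.p) = true then 1 else 0 := by
      by_cases hne : r.p' ≠ r.p
      · have e0 : (if decide (r.p' ≠ r.p) = true then 1 else 0) = 1 := by simp [hne]
        rw [e0]
        by_cases h : ∃ t ∈ Finset.range m, key off m r = (t : ℤ)
        · obtain ⟨t, ht, hk⟩ := h
          rw [Finset.sum_eq_single_of_mem t ht]
          · split_ifs <;> omega
          · intro b _ hb
            rw [if_neg]
            simp only [decide_eq_true_eq, hk]
            exact fun h => hb (by exact_mod_cast h.2.symm)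
        · have h : ∀ t ∈ Finset.range m, ¬ key off m r = (t : ℤ) := fun t ht hk => h ⟨t, ht, hk⟩
          rw [Finset.sum_eq_zero]
          · exact Nat.zero_le _
          · intro t ht
            rw [if_neg]
            simp only [decide_eq_true_eq]
            exact fun h' => h t ht h'.2
      · rw [Finset.sum_eq_zero]
        · exact Nat.zero_le _
        · intro t ht
          rw [if_neg]
          simp only [decide_eq_true_eq]
          exact fun h' => hne h'.1
    unfold moves at ih ⊢
    simp only [List.countP_cons, Finset.sum_add_distrib]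
    omega

/-- a good shift -/
theorem exists_shift (off m : ℕ) (hm : 0 < m) (l : List (Rec M))
    (hl : ∀ r ∈ l, |r.p' - r.p| ≤ 1) :
    ∃ t < m, ∀ j, (tr (seg off m j t) l).length * m ≤ moves l := by
  have h1 := sum_countP off m l
  obtain ⟨t, ht, hmin⟩ := Finset.exists_min_image (Finset.range m)
    (fun t => l.countP (fun r : Rec M => decide (r.p' ≠ r.p ∧ key off m r = (t : ℤ))))
    ⟨0, Finset.mem_range.mpr hm⟩
  refine ⟨t, Finset.mem_range.mp ht, fun j => ?_⟩
  have h2 := tr_length off m j t (Finset.mem_range.mp ht) l hl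
  have h3 : m * l.countP (fun r : Rec M => decide (r.p' ≠ r.p ∧ key off m r = (t : ℤ))) ≤
      ∑ t ∈ Finset.range m,
        l.countP (fun r : Rec M => decide (r.p' ≠ r.p ∧ key off m r = (t : ℤ))) := by
    have := Finset.card_nsmul_le_sum (Finset.range m)
      (fun t => l.countP (fun r : Rec M => decide (r.p' ≠ r.p ∧ key off m r = (t : ℤ)))) _ hmin
    simpa using this
  calc (tr (seg off m j t) l).length * m
      ≤ l.countP (fun r : Rec M => decide (r.p' ≠ r.p ∧ key off m r = (t : ℤ))) * m :=
        Nat.mul_le_mul_right _ h2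
    _ = m * l.countP (fun r : Rec M => decide (r.p' ≠ r.p ∧ key off m r = (t : ℤ))) := Nat.mul_comm _ _
    _ ≤ moves l := h3.trans h1

/-- the code of the new position after a crossing -/
def code (a b : ℤ) (y : ℤ) : Fin 4 :=
  if y = a then 0 else if y = a - 1 then 1 else if y = b - 1 then 2 else 3

theorem code_inj {a b x y : ℤ} (hx : x = a ∨ x = a - 1 ∨ x = b - 1 ∨ x = b)
    (hy : y = a ∨ y = a - 1 ∨ y = b - 1 ∨ y = b) (h : code a b x = code a b y) : x = y := by
  unfold code at h
  split_ifs at h <;> omega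

/-- the coded transcript, as a function -/
noncomputable def ctr (L off m j t : ℕ) (l : List (Rec M)) : Fin L → Option (M.Q × Fin 4) :=
  fun i => ((tr (seg off m j t) l)[(i : ℕ)]?).map fun e =>
    (e.1, code ((off + 2 * j * m + t : ℕ) : ℤ) ((off + 2 * (j + 1) * m + t : ℕ) : ℤ) e.2)

theorem tr_mem (off m j t : ℕ) (l : List (Rec M))
    (hl : ∀ r ∈ l, |r.p' - r.p| ≤ 1) : ∀ e ∈ tr (seg off m j t) l,
    (e.2 = ((off + 2 * j * m + t : ℕ) : ℤ) ∨ e.2 = ((off + 2 * j * m + t : ℕ) : ℤ) - 1 ∨
      e.2 = ((off + 2 * (j + 1) * m + t : ℕ) : ℤ) - 1 ∨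
      e.2 = ((off + 2 * (j + 1) * m + t : ℕ) : ℤ)) := by
  intro e he
  unfold tr at he
  obtain ⟨r, hr, he⟩ := List.mem_filterMap.mp he
  by_cases hx : (r.p ∈ seg off m j t ↔ r.p' ∈ seg off m j t)
  · rw [if_pos hx] at he; cases he
  · rw [if_neg hx] at he
    have := (cross_border (hl r hr) hx).2
    cases he
    exact this

theorem ctr_inj (L off m j t : ℕ) (l₁ l₂ : List (Rec M))
    (h₁ : ∀ r ∈ l₁, |r.p' - r.p| ≤ 1) (h₂ : ∀ r ∈ l₂, |r.p' - r.p| ≤ 1)
    (hL₁ : (tr (seg off m j t) l₁).length ≤ L) (hL₂ : (tr (seg off m j t) l₂).length ≤ L)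
    (h : ctr L off m j t l₁ = ctr L off m j t l₂) :
    tr (seg off m j t) l₁ = tr (seg off m j t) l₂ := by
  have hm₁ := tr_mem off m j t l₁ h₁
  have hm₂ := tr_mem off m j t l₂ h₂
  apply List.ext_getElem?
  intro i
  by_cases hi : i < L
  · have := congrFun h ⟨i, hi⟩
    unfold ctr at this
    simp only at this
    cases e1 : (tr (seg off m j t) l₁)[i]? with
    | none =>
      cases e2 : (tr (seg off m j t) l₂)[i]? with
      | none => rfl
      | some b => rw [e1, e2] at this; simp at this
    | some a =>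
      cases e2 : (tr (seg off m j t) l₂)[i]? with
      | none => rw [e1, e2] at this; simp at this
      | some b =>
        rw [e1, e2] at this
        simp only [Option.map_some, Option.some.injEq, Prod.mk.injEq] at this
        have ha := hm₁ a (List.mem_of_getElem? e1)
        have hb := hm₂ b (List.mem_of_getElem? e2)
        rw [Option.some.injEq]
        exact Prod.ext this.1 (code_inj ha hb this.2)
  · rw [List.getElem?_eq_none (by omega), List.getElem?_eq_none (by omega)]

end Pool.Agent.V7H15.SSE
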