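import Pool.Agent.V7H15.SSE.Core

set_option autoImplicit false

/-!
# The trade-off between time and space
-/

namespace Pool.Agent.V7H15.SSE

open Classical Filter

theorem exists_q (A : ℕ) : ∃ q₀ : ℕ, ∀ q ≥ q₀, A * q ^ 5 ≤ 2 ^ q := by
  have h := tendsto_pow_const_div_const_pow_of_one_lt 5 (by norm_num : (1 : ℝ) < 2)
  have hA : (0 : ℝ) < 1 / (A + 1) := by positivity
  have h2 := (h.eventually (gt_mem_nhds hA)).exists_forall_of_atTop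
  obtain ⟨q₀, hq₀⟩ := h2
  refine ⟨q₀, fun q hq => ?_⟩
  have h3 := hq₀ q hq
  have hp : (0 : ℝ) < 2 ^ q := by positivity
  rw [div_lt_div_iff₀ hp (by positivity)] at h3
  have h4 : (A : ℝ) * q ^ 5 ≤ 2 ^ q := by
    have h5 : (0 : ℝ) ≤ (q : ℝ) ^ 5 := by positivity
    nlinarith
  exact_mod_cast h4

theorem exists_m (k : ℕ) : ∃ m₀ : ℕ, ∀ m ≥ m₀, 9 * k * m ^ 5 ≤ 2 ^ (m / 4) := by
  obtain ⟨q₀, hq₀⟩ := exists_q (18 * 1024 * k)
  refine ⟨4 * q₀, fun m hm => ?_⟩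
  have h1 : q₀ ≤ m / 4 + 1 := by omega
  have h2 := hq₀ _ h1
  have h3 : m ≤ 4 * (m / 4 + 1) := by omega
  have h4 : m ^ 5 ≤ (4 * (m / 4 + 1)) ^ 5 := Nat.pow_le_pow_left h3 5
  have h5 : 9 * k * m ^ 5 ≤ 9 * k * (4 * (m / 4 + 1)) ^ 5 := Nat.mul_le_mul_left _ h4
  have h6 : 2 * (9 * k * (4 * (m / 4 + 1)) ^ 5) = 18 * 1024 * k * (m / 4 + 1) ^ 5 := by ring
  have h7 : 2 ^ (m / 4 + 1) = 2 * 2 ^ (m / 4) := by rw [pow_succ]; ring
  rw [h7, ← h6] at h2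
  omega

theorem main (ε η : ℝ) (h : ε + η < 1) :
    ∃ c : ℝ, 0 < c ∧ ∃ N₀ : ℕ, ∀ n ≥ N₀, ∀ (M : Machine) (S T : ℕ) (δ : ℝ),
      Finite M.Q → 1 ≤ S → Nat.card M.Q ≤ 2 ^ S →
      (∀ x : List Bool, x.length = n → x ∈ Repeats →
        ∃ T' ≤ T, ∃ O, Prints M x T' O ∧ Yes ε δ O ∧
          ∀ v d, Item.size v d ∈ O → (v : ℝ) ≤ (2 : ℝ) ^ (c * n)) →
      (∀ x : List Bool, x.length = n → x ∉ Repeats →
        ∀ T' O, Prints M x T' O → No η δ O) →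
      c * (n : ℝ) ^ 2 ≤ (T : ℝ) * S := by
  obtain ⟨k₀, hk₀⟩ := exists_nat_gt ((1 - ε) / (1 - ε - η))
  set k := max 2 k₀ with hkdef
  have hk : 2 ≤ k := le_max_left _ _
  have hpos : 0 < 1 - ε - η := by linarith
  have hkey : (k : ℝ) * η < (k - 1) * (1 - ε) := by
    have h1 : (1 - ε) / (1 - ε - η) < k :=
      hk₀.trans_le (by exact_mod_cast le_max_right 2 k₀)
    rw [div_lt_iff₀ hpos] at h1
    linarith
  obtain ⟨m₀, hm₀⟩ := exists_m k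
  have hk1 : (0 : ℝ) < (k : ℝ) + 1 := by positivity
  have hk1' : (1 : ℝ) ≤ (k : ℝ) + 1 := by
    have : (0 : ℝ) ≤ k := Nat.cast_nonneg k
    linarith
  refine ⟨1 / (256 * ((k : ℝ) + 1) ^ 2), by positivity,
    max (6 * k + 2) (4 * (k + 1) * (m₀ + 16)), ?_⟩
  intro n hn M S T δ hfin hS hQ hyes hno
  have hn1 : 6 * k + 2 ≤ n := (le_max_left _ _).trans hn
  have hn2 : 4 * (k + 1) * (m₀ + 16) ≤ n := (le_max_right _ _).trans hn
  by_contra hcon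
  push Not at hcon
  obtain ⟨m, hm⟩ : ∃ m, (n - k - 1) / (2 * k + 1) = m := ⟨_, rfl⟩
  have hmn : n ≤ 4 * (k + 1) * m := by
    have h1 : n - k - 1 < (2 * k + 1) * (m + 1) := by
      rw [← hm]; exact Nat.lt_mul_div_succ _ (by omega)
    have h2 : (2 * k + 1) * (m + 1) = (2 * k + 1) * m + (2 * k + 1) := by ring
    have h3 : 4 * (k + 1) * m = 2 * ((2 * k + 1) * m) + 2 * m := by ring
    omega
  have hmm : m₀ + 16 ≤ m := by
    have : 4 * (k + 1) * (m₀ + 16) ≤ 4 * (k + 1) * m := hn2.trans hmn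
    exact Nat.le_of_mul_le_mul_left this (by positivity)
  have hmpos : 0 < m := by omega
  have hnr : (n : ℝ) ≤ 4 * (k + 1) * m := by exact_mod_cast hmn
  have hmr : (0 : ℝ) < m := by exact_mod_cast hmpos
  -- the number of vertices
  have hN : ∀ v : ℕ, (v : ℝ) ≤ (2 : ℝ) ^ (1 / (256 * ((k : ℝ) + 1) ^ 2) * n) →
      v ≤ 2 ^ (m / 64 + 1) := by
    intro v hv
    have h1 : 1 / (256 * ((k : ℝ) + 1) ^ 2) * n ≤ ((m / 64 + 1 : ℕ) : ℝ) := by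
      have h2 : 1 / (256 * ((k : ℝ) + 1) ^ 2) * n ≤ (m : ℝ) / 64 := by
        rw [div_mul_eq_mul_div, one_mul, div_le_div_iff₀ (by positivity) (by norm_num)]
        have h3 : (n : ℝ) * 64 ≤ 256 * ((k : ℝ) + 1) * m := by linarith
        have h4 : 256 * ((k : ℝ) + 1) * m ≤ m * (256 * ((k : ℝ) + 1) ^ 2) := by
          have h5 : ((k : ℝ) + 1) * 1 ≤ ((k : ℝ) + 1) * ((k : ℝ) + 1) :=
            mul_le_mul_of_nonneg_left hk1' hk1.le
          nlinarith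
        exact h3.trans h4
      have h6 : (m : ℝ) / 64 ≤ ((m / 64 + 1 : ℕ) : ℝ) := by
        rw [div_le_iff₀ (by norm_num)]
        have : m ≤ (m / 64 + 1) * 64 := by omega
        exact_mod_cast this
      exact h2.trans h6
    have h7 : (2 : ℝ) ^ (1 / (256 * ((k : ℝ) + 1) ^ 2) * n) ≤ (2 : ℝ) ^ ((m / 64 + 1 : ℕ) : ℝ) :=
      Real.rpow_le_rpow_of_exponent_le (by norm_num) h1
    rw [Real.rpow_natCast] at h7
    have h8 := hv.trans h7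
    exact_mod_cast h8
  have hcore := core k hk hkey n m T S (2 ^ (m / 64 + 1)) (by omega) hmpos hm hfin hQ
    (fun x hx hxR => by
      obtain ⟨T', hT', O, hO, hY, hv⟩ := hyes x hx hxR
      exact ⟨T', hT', O, hO, hY, fun v d hvd => hN v (hv v d hvd)⟩) hno
  have hm5 := hm₀ m (by omega)
  -- bounds
  have hTS : 256 * (T * S) ≤ 16 * m ^ 2 := by
    have hc1 : (T : ℝ) * S * (256 * ((k : ℝ) + 1) ^ 2) < (n : ℝ) ^ 2 := by
      rw [div_mul_eq_mul_div, one_mul, lt_div_iff₀ (by positivity)] at hcon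
      exact hcon
    have hc2 : (n : ℝ) ^ 2 ≤ (4 * (k + 1) * m) ^ 2 :=
      pow_le_pow_left₀ (Nat.cast_nonneg n) hnr 2
    have hc3 : (T : ℝ) * S * 256 * ((k : ℝ) + 1) ^ 2 ≤ 16 * (m : ℝ) ^ 2 * ((k : ℝ) + 1) ^ 2 := by
      nlinarith
    have hc4 : (T : ℝ) * S * 256 ≤ 16 * (m : ℝ) ^ 2 := le_of_mul_le_mul_right hc3 (by positivity)
    have hc5 : (256 : ℝ) * (T * S) ≤ 16 * (m : ℝ) ^ 2 := by linarith
    exact_mod_cast hc5
  have hSL : 4 * S * (T / m) ≤ m / 4 := by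
    have h1 : T / m * m ≤ T := Nat.div_mul_le_self _ _
    have h2 : 256 * (T / m * m * S) ≤ 16 * m ^ 2 :=
      (Nat.mul_le_mul_left _ (Nat.mul_le_mul_right _ h1)).trans hTS
    have h3 : 256 * (S * (T / m)) * m ≤ 16 * m * m := by
      calc 256 * (S * (T / m)) * m = 256 * (T / m * m * S) := by ring
        _ ≤ 16 * m ^ 2 := h2
        _ = 16 * m * m := by ring
    have h4 := Nat.le_of_mul_le_mul_right h3 hmpos
    rw [Nat.le_div_iff_mul_le (by norm_num)]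
    have : 4 * S * (T / m) * 4 = 16 * (S * (T / m)) := by ring
    omega
  have hpow : (4 * 2 ^ S + 1) ^ (T / m) ≤ 2 ^ (m / 4) := by
    have h1 : 4 * 2 ^ S + 1 ≤ 2 ^ (4 * S) := by
      have h2 : 4 * 2 ^ S + 1 ≤ 2 ^ (S + 3) := by
        have : 1 ≤ 2 ^ S := Nat.one_le_two_pow
        rw [pow_add]; omega
      exact h2.trans (Nat.pow_le_pow_right (by norm_num) (by omega))
    calc (4 * 2 ^ S + 1) ^ (T / m) ≤ (2 ^ (4 * S)) ^ (T / m) := Nat.pow_le_pow_left h1 _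
      _ = 2 ^ (4 * S * (T / m)) := by rw [← pow_mul]
      _ ≤ 2 ^ (m / 4) := Nat.pow_le_pow_right (by norm_num) hSL
  have hkm : k * m ≤ 2 ^ (m / 4) := by
    have h1 : k * m ≤ 9 * k * m ^ 5 := by
      have h2 : m ^ 1 ≤ m ^ 5 := Nat.pow_le_pow_right hmpos (by norm_num)
      rw [pow_one] at h2
      calc k * m ≤ k * m ^ 5 := Nat.mul_le_mul_left _ h2
        _ ≤ 9 * k * m ^ 5 := Nat.mul_le_mul_right _ (by omega)
    exact h1.trans hm5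
  have hNN : (2 ^ (m / 64 + 1) + 1) ^ 2 ≤ 2 ^ (2 * (m / 64) + 4) := by
    have h1 : 2 ^ (m / 64 + 1) + 1 ≤ 2 ^ (m / 64 + 2) := by
      have h2 : 1 ≤ 2 ^ (m / 64 + 1) := Nat.one_le_two_pow
      have h3 : 2 ^ (m / 64 + 2) = 2 * 2 ^ (m / 64 + 1) := by rw [pow_succ]; ring
      omega
    calc (2 ^ (m / 64 + 1) + 1) ^ 2 ≤ (2 ^ (m / 64 + 2)) ^ 2 := Nat.pow_le_pow_left h1 2
      _ = 2 ^ (2 * (m / 64) + 4) := by rw [← pow_mul]; ring_nf
  have hfinal : 2 ^ m ≤ 2 ^ (m / 4 + m / 4 + (2 * (m / 64) + 4)) := by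
    calc 2 ^ m ≤ k * m * (4 * 2 ^ S + 1) ^ (T / m) * (2 ^ (m / 64 + 1) + 1) ^ 2 := hcore
      _ ≤ 2 ^ (m / 4) * 2 ^ (m / 4) * 2 ^ (2 * (m / 64) + 4) :=
        Nat.mul_le_mul (Nat.mul_le_mul hkm hpow) hNN
      _ = 2 ^ (m / 4 + m / 4 + (2 * (m / 64) + 4)) := by rw [← pow_add, ← pow_add]
  have := (Nat.pow_le_pow_iff_right (by norm_num : 1 < 2)).mp hfinal
  omega

end Pool.Agent.V7H15.SSE
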