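import Pool.Agent.V7H15.SSE.Count

set_option autoImplicit false

/-!
# Printed graphs
-/

namespace Pool.Agent.V7H15.SSE

open Classical

/-- the number of edges leaving `S` -/
noncomputable def cut {n : ℕ} (G : SimpleGraph (Fin n)) (S : Finset (Fin n)) : ℕ :=
  (Finset.univ.filter fun p : Fin n × Fin n => p.1 ∈ S ∧ p.2 ∉ S ∧ G.Adj p.1 p.2).card

/-- The items of `O` describe the graph `G` with the vertices `0, …, n - 1`, regular of degree
`d ≥ 1`: the pair `(n, d)` is printed, and no other pair; every edge is printed, in one or both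
directions, and nothing else. -/
def Describes (O : Set Item) (n d : ℕ) (G : SimpleGraph (Fin n)) : Prop :=
  Item.size n d ∈ O ∧ (∀ n' d', Item.size n' d' ∈ O → n' = n ∧ d' = d) ∧
  (∀ u v, Item.edge u v ∈ O → u < n ∧ v < n ∧ u ≠ v) ∧
  (∀ u v : Fin n, G.Adj u v ↔ (Item.edge u v ∈ O ∨ Item.edge v u ∈ O)) ∧
  (∀ v, (Finset.univ.filter fun w => G.Adj v w).card = d) ∧ 1 ≤ d

/-- `O` describes a regular graph in which some set of `δ n ≥ 1` vertices has expansion at most
`ε` -/
def Yes (ε δ : ℝ) (O : Set Item) : Prop :=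
  ∃ (n d : ℕ) (G : SimpleGraph (Fin n)), Describes O n d G ∧
    ∃ S : Finset (Fin n), S.Nonempty ∧ (S.card : ℝ) = δ * n ∧ (cut G S : ℝ) ≤ ε * (d * S.card)

/-- `O` describes a regular graph in which `δ n` is a positive integer and all sets of `δ n`
vertices have expansion at least `1 - η` -/
def No (η δ : ℝ) (O : Set Item) : Prop :=
  ∃ (n d : ℕ) (G : SimpleGraph (Fin n)), Describes O n d G ∧ (∃ s : ℕ, 0 < s ∧ (s : ℝ) = δ * n) ∧
    ∀ S : Finset (Fin n), (S.card : ℝ) = δ * n → (1 - η) * (d * S.card) ≤ cut G S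

/-- the ordered pairs of adjacent elements of `S` -/
noncomputable def inside {n : ℕ} (G : SimpleGraph (Fin n)) (S : Finset (Fin n)) :
    Finset (Fin n × Fin n) :=
  Finset.univ.filter fun p : Fin n × Fin n => p.1 ∈ S ∧ p.2 ∈ S ∧ G.Adj p.1 p.2

theorem inside_add_cut {n d : ℕ} (G : SimpleGraph (Fin n)) (S : Finset (Fin n))
    (h : ∀ v, (Finset.univ.filter fun w => G.Adj v w).card = d) :
    (inside G S).card + cut G S = d * S.card := by
  have h1 : (inside G S).card + cut G S =
      (Finset.univ.filter fun p : Fin n × Fin n => p.1 ∈ S ∧ G.Adj p.1 p.2).card := by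
    unfold inside cut
    rw [← Finset.card_union_of_disjoint]
    · congr 1
      ext p
      simp only [Finset.mem_union, Finset.mem_filter, Finset.mem_univ, true_and]
      tauto
    · rw [Finset.disjoint_left]
      intro p hp hq
      simp only [Finset.mem_filter, Finset.mem_univ, true_and] at hp hq
      exact hq.2.1 hp.2.1
  have h2 : (Finset.univ.filter fun p : Fin n × Fin n => p.1 ∈ S ∧ G.Adj p.1 p.2) =
      S.biUnion fun v => (Finset.univ.filter fun w => G.Adj v w).image fun w => (v, w) := by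
    ext p
    simp only [Finset.mem_biUnion, Finset.mem_image, Finset.mem_filter, Finset.mem_univ, true_and]
    constructor
    · rintro ⟨h1, h2⟩
      exact ⟨p.1, h1, p.2, h2, rfl⟩
    · rintro ⟨v, hv, w, hw, rfl⟩
      exact ⟨hv, hw⟩
  rw [h1, h2, Finset.card_biUnion]
  · rw [Finset.sum_congr rfl (fun v _ => (Finset.card_image_of_injective _
      (fun a b hab => (Prod.mk.inj hab).2 : Function.Injective fun w => (v, w))).trans (h v))]
    simp [mul_comm]
  · intro a _ b _ hab
    rw [Function.onFun, Finset.disjoint_left]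
    intro p hp hq
    simp only [Finset.mem_image] at hp hq
    obtain ⟨w, _, rfl⟩ := hp
    obtain ⟨w', _, hw'⟩ := hq
    exact hab (Prod.mk.inj hw').1.symm

variable {M : Machine}

/-- what is printed in a list of records -/
def printed (l : List (Rec M)) : Set Item := {it | ∃ r ∈ l, r.o = some it}

theorem describes_deg {O : Set Item} {n d : ℕ} {G : SimpleGraph (Fin n)} (h : Describes O n d G)
    (hn : 0 < n) : d < n := by
  obtain ⟨h1, h2, h3, h4, h5, h6⟩ := h
  rw [← h5 ⟨0, hn⟩]
  have : (Finset.univ.filter fun w => G.Adj (⟨0, hn⟩ : Fin n) w) ⊂ Finset.univ := by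
    rw [Finset.ssubset_univ_iff]
    intro h
    have := Finset.mem_univ (⟨0, hn⟩ : Fin n)
    rw [← h] at this
    exact G.loopless.irrefl _ (Finset.mem_filter.mp this).2
  simpa using Finset.card_lt_card this

theorem seg_unique {off m t j j' : ℕ} {z : ℤ} (h : z ∈ seg off m j t) (h' : z ∈ seg off m j' t) :
    j = j' := by
  have aux : ∀ a b : ℕ, z ∈ seg off m a t → z ∈ seg off m b t → a ≤ b := by
    intro a b ha hb
    by_contra hcon
    have h1 := ha.1
    have h2 := hb.2
    have h3 : 2 * (b + 1) * m ≤ 2 * a * m := Nat.mul_le_mul_right _ (by omega)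
    have h4 : ((off + 2 * (b + 1) * m + t : ℕ) : ℤ) ≤ ((off + 2 * a * m + t : ℕ) : ℤ) := by
      exact_mod_cast (by omega : off + 2 * (b + 1) * m + t ≤ off + 2 * a * m + t)
    linarith
  exact le_antisymm (aux j j' h h') (aux j' j h' h)

/-- What is used about the run on a yes instance. -/
theorem good {ε η δ : ℝ} (k : ℕ) (hk : 0 < k) (hkey : k * η < (k - 1) * (1 - ε))
    (off m T N : ℕ) (hm : 0 < m) (x : List Bool) (T' : ℕ) (O : Set Item) (hT : T' ≤ T)
    (hP : Prints M x T' O) (hY : Yes ε δ O) (hN : ∀ v d, Item.size v d ∈ O → v ≤ N) :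
    ∃ (l : List (Rec M)) (f : Config M) (n d t j : ℕ), Run (initial M x) l f ∧ M.halt f.q ∧
      t < m ∧ j < k ∧ (tr (seg off m j t) l).length ≤ T / m ∧ n < N + 1 ∧ d < N + 1 ∧
      (∀ n' d', Item.size n' d' ∈ printed l → n' = n ∧ d' = d) ∧
      (∀ O' : Set Item, (∀ r ∈ l, r.p ∉ seg off m j t → ∀ it, r.o = some it → it ∈ O') →
        (∀ n' d', Item.size n' d' ∈ O' → n' = n ∧ d' = d) → ¬ No η δ O') := by
  obtain ⟨l, f, hrun, hhalt, hlen, hO⟩ := hP
  obtain ⟨n, d, G, hD, S, hS, hSc, hcut⟩ := hY
  have hOp : O = printed l := hO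
  have hnN : n ≤ N := hN n d hD.1
  rw [hOp] at hD
  obtain ⟨t, ht, htr⟩ := exists_shift off m hm l (run_move hrun)
  -- a record for every ordered pair
  have hrec : ∀ p : Fin n × Fin n, p ∈ inside G S → ∃ r ∈ l,
      r.o = some (Item.edge p.1 p.2) ∨ r.o = some (Item.edge p.2 p.1) := by
    intro p hp
    have hadj : G.Adj p.1 p.2 := ((Finset.mem_filter.mp hp).2).2.2
    rcases (hD.2.2.2.1 _ _).mp hadj with ⟨r, hr, ho⟩ | ⟨r, hr, ho⟩
    · exact ⟨r, hr, Or.inl ho⟩
    · exact ⟨r, hr, Or.inr ho⟩
  have : Nonempty (Rec M) := ⟨⟨0, none, M.start, 0⟩⟩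
  choose! g hg1 hg2 using hrec
  -- averaging
  have hav : ∃ j < k, k * ((inside G S).filter fun p => (g p).p ∈ seg off m j t).card ≤
      (inside G S).card := by
    obtain ⟨j, hj, hmin⟩ := Finset.exists_min_image (Finset.range k)
      (fun j => ((inside G S).filter fun p => (g p).p ∈ seg off m j t).card)
      ⟨0, Finset.mem_range.mpr hk⟩
    refine ⟨j, Finset.mem_range.mp hj, ?_⟩
    have h1 := Finset.card_nsmul_le_sum (Finset.range k)
      (fun j => ((inside G S).filter fun p => (g p).p ∈ seg off m j t).card) _ hmin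
    rw [Finset.card_range, smul_eq_mul] at h1
    refine h1.trans ?_
    rw [← Finset.card_biUnion]
    · apply Finset.card_le_card
      intro p hp
      obtain ⟨i, _, hi⟩ := Finset.mem_biUnion.mp hp
      exact (Finset.mem_filter.mp hi).1
    · intro a _ b _ hab
      rw [Function.onFun, Finset.disjoint_left]
      intro p hp hq
      exact hab (seg_unique (Finset.mem_filter.mp hp).2 (Finset.mem_filter.mp hq).2)
  obtain ⟨j, hj, hjc⟩ := hav
  have hn : 0 < n := by
    obtain ⟨v, _⟩ := hS
    exact Nat.pos_of_ne_zero (by rintro rfl; exact v.elim0)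
  have hdn := describes_deg hD hn
  refine ⟨l, f, n, d, t, j, hrun, hhalt, ht, hj, ?_, by omega, by omega, hD.2.1, ?_⟩
  · rw [Nat.le_div_iff_mul_le hm]
    exact (htr j).trans (by omega)
  · intro O' hO' hsize hNo
    obtain ⟨n', d', G', hD', _, hall⟩ := hNo
    obtain ⟨e1, e2⟩ := hsize n' d' hD'.1
    have e1' := e1.symm
    have e2' := e2.symm
    subst e1'; subst e2'
    have hNS := hall S hSc
    have hins : (inside G S).filter (fun p => ¬ (g p).p ∈ seg off m j t) ⊆ inside G' S := by
      intro p hp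
      obtain ⟨hp1, hp2⟩ := Finset.mem_filter.mp hp
      have h0 := (Finset.mem_filter.mp hp1).2
      refine Finset.mem_filter.mpr ⟨Finset.mem_univ _, h0.1, h0.2.1, ?_⟩
      rw [hD'.2.2.2.1]
      rcases hg2 p hp1 with h | h
      · exact Or.inl (hO' _ (hg1 p hp1) hp2 _ h)
      · exact Or.inr (hO' _ (hg1 p hp1) hp2 _ h)
    have hc1 := Finset.card_le_card hins
    have hc2 := Finset.card_filter_add_card_filter_not (s := inside G S)
      (fun p => (g p).p ∈ seg off m j t)
    have hx := inside_add_cut G S hD.2.2.2.2.1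
    have hx' := inside_add_cut G' S hD'.2.2.2.2.1
    set I := (inside G S).card with hI
    set I' := (inside G' S).card with hI'
    set B := ((inside G S).filter fun p => (g p).p ∈ seg off m j t).card with hB
    have hfin : (k : ℝ) * I ≤ k * I' + I := by
      have : k * I ≤ k * I' + I := by
        have : I ≤ I' + B := by omega
        calc k * I ≤ k * (I' + B) := Nat.mul_le_mul_left _ this
          _ = k * I' + k * B := by ring
          _ ≤ k * I' + I := by omega
      exact_mod_cast this
    have hxr : (I : ℝ) + cut G S = d * S.card := by exact_mod_cast hx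
    have hxr' : (I' : ℝ) + cut G' S = d * S.card := by exact_mod_cast hx'
    have hpos : (0 : ℝ) < d * S.card := by
      have h1 : 0 < d := hD.2.2.2.2.2
      have h2 : 0 < S.card := Finset.card_pos.mpr hS
      positivity
    have hkr : (1 : ℝ) ≤ k := by exact_mod_cast hk
    set D : ℝ := d * S.card with hDdef
    have i1 : (1 - ε) * D ≤ I := by linarith
    have i2 : (I' : ℝ) ≤ η * D := by linarith
    have i3 : ((k : ℝ) - 1) * I ≤ k * I' := by linarith
    have i4 : ((k : ℝ) - 1) * ((1 - ε) * D) ≤ (k - 1) * I :=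
      mul_le_mul_of_nonneg_left i1 (by linarith)
    have i5 : (k : ℝ) * I' ≤ k * (η * D) := mul_le_mul_of_nonneg_left i2 (by linarith)
    have i6 : ((k : ℝ) - 1) * (1 - ε) * D ≤ k * η * D := by nlinarith
    have i7 : k * η * D < ((k : ℝ) - 1) * (1 - ε) * D := mul_lt_mul_of_pos_right hkey hpos
    linarith

end Pool.Agent.V7H15.SSE
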