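import Mathlib

set_option autoImplicit false

/-!
# Sequential machines which print graphs, and cutting and pasting of their runs
-/

namespace Pool.Agent.V7H15.SSE

/-- What a machine may print: the number of vertices together with the degree, or one edge. -/
inductive Item : Type
  | size (n d : ℕ)
  | edge (u v : ℕ)

/-- A nondeterministic machine with a finite memory, whose states are the elements of `Q`, and one
tape whose cells are indexed by the integers and contain elements of `Γ` (which may be infinite, so
that a cell may hold any amount of information). `init p b` is what the cell `p` contains at the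
start if the input has the bit `b` there (`none` for the cells outside the input).
`step p q a o q' a' p'` says that with the head on the cell `p`, in the state `q` and with the
content `a` of this cell, the machine may print `o` (nothing or one item), pass to the state `q'`,
write `a'` into the cell `p` and put the head on the cell `p'`. -/
structure Machine : Type 1 where
  Q : Type
  Γ : Type
  start : Q
  halt : Q → Prop
  init : ℤ → Option Bool → Γ
  step : ℤ → Q → Γ → Option Item → Q → Γ → ℤ → Prop

variable {M : Machine}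

/-- a state, a position of the head and a content of the tape -/
structure Config (M : Machine) : Type where
  q : M.Q
  p : ℤ
  tape : ℤ → M.Γ

/-- the record of one step: the position of the head, what is printed, the new state and the new
position -/
structure Rec (M : Machine) : Type where
  p : ℤ
  o : Option Item
  q' : M.Q
  p' : ℤ

/-- one step; the head moves by at most one cell -/
def Step (c : Config M) (r : Rec M) (c' : Config M) : Prop :=
  r.p = c.p ∧ r.q' = c'.q ∧ r.p' = c'.p ∧ |c'.p - c.p| ≤ 1 ∧
    ∃ a, M.step c.p c.q (c.tape c.p) r.o c'.q a c'.p ∧ c'.tape = Function.update c.tape c.p a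

/-- a run, that is a sequence of steps, with the list of the records of its steps -/
inductive Run : Config M → List (Rec M) → Config M → Prop
  | nil (c : Config M) : Run c [] c
  | cons {c c' f : Config M} {r : Rec M} {l : List (Rec M)} :
      Step c r c' → Run c' l f → Run c (r :: l) f

/-- the configuration at the start with input `x`, which is written on the cells `0, 1, 2, …`; the
head is on the cell `0` -/
def initial (M : Machine) (x : List Bool) : Config M where
  q := M.start
  p := 0
  tape := fun p => M.init p (if 0 ≤ p then x[p.toNat]? else none)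

/-- the number of the steps which move the head -/
def moves (l : List (Rec M)) : ℕ := l.countP fun r => decide (r.p' ≠ r.p)

/-- On the input `x` the machine has a run which ends in a halting state, moves the head in exactly
`T` of its steps and prints exactly the items of the set `O`. The steps in which the head stays
where it is are not counted; there may be any number of them. -/
def Prints (M : Machine) (x : List Bool) (T : ℕ) (O : Set Item) : Prop :=
  ∃ (l : List (Rec M)) (f : Config M), Run (initial M x) l f ∧ M.halt f.q ∧ moves l = T ∧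
    O = {it | ∃ r ∈ l, r.o = some it}

section Mix

open Classical

/-- The crossings between `A` and its complement, with the state and the position after each. -/
noncomputable def tr (A : Set ℤ) (l : List (Rec M)) : List (M.Q × ℤ) :=
  l.filterMap fun r => if (r.p ∈ A ↔ r.p' ∈ A) then none else some (r.q', r.p')

theorem tr_nil (A : Set ℤ) : tr A ([] : List (Rec M)) = [] := rfl

theorem tr_cons_stay (A : Set ℤ) (r : Rec M) (l : List (Rec M)) (h : r.p ∈ A ↔ r.p' ∈ A) :
    tr A (r :: l) = tr A l := by
  unfold tr
  rw [List.filterMap_cons]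
  simp [h]

theorem tr_cons_cross (A : Set ℤ) (r : Rec M) (l : List (Rec M)) (h : ¬ (r.p ∈ A ↔ r.p' ∈ A)) :
    tr A (r :: l) = (r.q', r.p') :: tr A l := by
  unfold tr
  rw [List.filterMap_cons]
  simp [h]

theorem tr_compl (A : Set ℤ) (l : List (Rec M)) : tr Aᶜ l = tr A l := by
  unfold tr
  congr 1
  funext r
  simp only [Set.mem_compl_iff]
  by_cases h : (r.p ∈ A ↔ r.p' ∈ A)
  · rw [if_pos h, if_pos (not_congr h)]
  · rw [if_neg h, if_neg (fun h' => h (not_iff_not.mp h'))]

/-- the tape which agrees with the second one on `A` and with the first one elsewhere -/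
noncomputable def mixTape (A : Set ℤ) (t₁ t₂ : ℤ → M.Γ) : ℤ → M.Γ :=
  fun p => if p ∈ A then t₂ p else t₁ p

theorem mixTape_compl (A : Set ℤ) (t₁ t₂ : ℤ → M.Γ) :
    mixTape Aᶜ t₂ t₁ = mixTape A t₁ t₂ := by
  funext p
  unfold mixTape
  by_cases h : p ∈ A
  · rw [if_neg (fun h' => h' h), if_pos h]
  · rw [if_pos (show p ∈ Aᶜ from h), if_neg h]

theorem stay_out (A : Set ℤ) {c f : Config M} {l : List (Rec M)} (h : Run c l f) :
    c.p ∉ A → tr A l = [] → ∀ r ∈ l, r.p ∉ A := by
  induction h with
  | nil c => intro _ _ r hr; simp at hr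
  | @cons c c' f r l hs hr ih =>
    intro hc ht r' hr'
    obtain ⟨h1, h2, h3, h4, h5⟩ := hs
    by_cases hx : (r.p ∈ A ↔ r.p' ∈ A)
    · rw [tr_cons_stay A r l hx] at ht
      have hc' : c'.p ∉ A := by
        rw [← h3, ← hx, h1]; exact hc
      rcases List.mem_cons.mp hr' with rfl | hr'
      · rw [h1]; exact hc
      · exact ih hc' ht r' hr'
    · rw [tr_cons_cross A r l hx] at ht
      simp at ht

/-- fast forward to the next crossing -/
theorem forward (A : Set ℤ) {c f : Config M} {l : List (Rec M)} (h : Run c l f) :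
    ∀ (e : M.Q × ℤ) (E : List (M.Q × ℤ)), c.p ∉ A → tr A l = e :: E →
    ∃ (c' : Config M) (l' : List (Rec M)), Run c' l' f ∧ c'.q = e.1 ∧ c'.p = e.2 ∧ c'.p ∈ A ∧
      tr A l' = E ∧ (∀ z ∈ A, c'.tape z = c.tape z) ∧ (∀ r ∈ l, r.p ∈ A → r ∈ l') ∧
      (∀ r ∈ l', r ∈ l) ∧ l'.length < l.length := by
  induction h with
  | nil c => intro e E _ ht; simp [tr_nil] at ht
  | @cons c c' f r l hs hr ih =>
    intro e E hc ht
    obtain ⟨h1, h2, h3, h4, a, h5, h6⟩ := hs
    have htape : ∀ z ∈ A, c'.tape z = c.tape z := by
      intro z hz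
      rw [h6, Function.update_of_ne]
      rintro rfl
      exact hc hz
    by_cases hx : (r.p ∈ A ↔ r.p' ∈ A)
    · rw [tr_cons_stay A r l hx] at ht
      have hc' : c'.p ∉ A := by
        rw [← h3, ← hx, h1]; exact hc
      obtain ⟨c'', l', g1, g2, g3, g4, g5, g6, g7, g8, g9⟩ := ih e E hc' ht
      refine ⟨c'', l', g1, g2, g3, g4, g5, ?_, ?_, ?_, ?_⟩
      · intro z hz; rw [g6 z hz, htape z hz]
      · intro r' hr' hA
        rcases List.mem_cons.mp hr' with rfl | hr'
        · exact absurd hA (by rw [h1]; exact hc)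
        · exact g7 r' hr' hA
      · intro r' hr'; exact List.mem_cons_of_mem _ (g8 r' hr')
      · simp only [List.length_cons]; omega
    · rw [tr_cons_cross A r l hx] at ht
      have he : (r.q', r.p') = e := (List.cons.inj ht).1
      have hE : tr A l = E := (List.cons.inj ht).2
      have hpA : c'.p ∈ A := by
        by_contra hcon
        apply hx
        rw [h1, h3]
        exact iff_of_false hc hcon
      refine ⟨c', l, hr, ?_, ?_, hpA, hE, htape, ?_, ?_, ?_⟩
      · rw [← he, ← h2]
      · rw [← he, ← h3]
      · intro r' hr' hA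
        rcases List.mem_cons.mp hr' with rfl | hr'
        · exact absurd hA (by rw [h1]; exact hc)
        · exact hr'
      · intro r' hr'; exact List.mem_cons_of_mem _ hr'
      · simp

/-- Cut and paste: two runs with the same crossings of the border of `A` can be combined. -/
theorem mix_aux : ∀ (n : ℕ) (A : Set ℤ) (c₁ c₂ f₁ f₂ : Config M) (l₁ l₂ : List (Rec M)),
    l₁.length + l₂.length ≤ n → Run c₁ l₁ f₁ → Run c₂ l₂ f₂ → c₁.p ∉ A → c₂.p ∉ A →
    tr A l₁ = tr A l₂ →
    ∃ (l : List (Rec M)) (f : Config M),
      Run ⟨c₁.q, c₁.p, mixTape A c₁.tape c₂.tape⟩ l f ∧ (f.q = f₁.q ∨ f.q = f₂.q) ∧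
      (∀ r ∈ l₁, r.p ∉ A → r ∈ l) ∧ (∀ r ∈ l₂, r.p ∈ A → r ∈ l) ∧
      (∀ r ∈ l, r ∈ l₁ ∨ r ∈ l₂) := by
  intro n
  induction n with
  | zero =>
    intro A c₁ c₂ f₁ f₂ l₁ l₂ hn h₁ h₂ hc₁ hc₂ ht
    have e1 : l₁ = [] := List.length_eq_zero_iff.mp (by omega)
    have e2 : l₂ = [] := List.length_eq_zero_iff.mp (by omega)
    subst e1; subst e2
    cases h₁
    refine ⟨[], _, Run.nil _, Or.inl rfl, ?_, ?_, ?_⟩ <;> intro r hr <;> simp at hr
  | succ n ih =>
    intro A c₁ c₂ f₁ f₂ l₁ l₂ hn h₁ h₂ hc₁ hc₂ ht
    cases h₁ with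
    | nil =>
      refine ⟨[], _, Run.nil _, Or.inl rfl, ?_, ?_, ?_⟩
      · intro r hr; simp at hr
      · intro r hr hA
        exact absurd hA (stay_out A h₂ hc₂ (by rw [← ht, tr_nil]) r hr)
      · intro r hr; simp at hr
    | @cons _ c₁' _ r l₁' hs hr =>
      obtain ⟨h1, h2, h3, h4, a, h5, h6⟩ := hs
      have hstep : ∀ t₂ : ℤ → M.Γ, Step (M := M) ⟨c₁.q, c₁.p, mixTape A c₁.tape t₂⟩ r
          ⟨c₁'.q, c₁'.p, mixTape A c₁'.tape t₂⟩ := by
        intro t₂
        refine ⟨h1, h2, h3, h4, a, ?_, ?_⟩
        · have : mixTape A c₁.tape t₂ c₁.p = c₁.tape c₁.p := by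
            unfold mixTape; rw [if_neg hc₁]
          show M.step c₁.p c₁.q (mixTape A c₁.tape t₂ c₁.p) r.o c₁'.q a c₁'.p
          rw [this]; exact h5
        · show mixTape A c₁'.tape t₂ = Function.update (mixTape A c₁.tape t₂) c₁.p a
          funext z
          by_cases hz : z = c₁.p
          · subst hz
            rw [Function.update_self]
            unfold mixTape
            rw [if_neg hc₁, h6, Function.update_self]
          · rw [Function.update_of_ne hz]
            unfold mixTape
            rw [h6, Function.update_of_ne hz]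
      by_cases hx : (r.p ∈ A ↔ r.p' ∈ A)
      · rw [tr_cons_stay A r l₁' hx] at ht
        have hc' : c₁'.p ∉ A := by
          rw [← h3, ← hx, h1]; exact hc₁
        obtain ⟨l, f, g1, g2, g3, g4, g5⟩ := ih A c₁' c₂ f₁ f₂ l₁' l₂
          (by simp only [List.length_cons] at hn; omega) hr h₂ hc' hc₂ ht
        refine ⟨r :: l, f, Run.cons (hstep _) g1, g2, ?_, ?_, ?_⟩
        · intro r' hr' hA
          rcases List.mem_cons.mp hr' with rfl | hr'
          · exact List.mem_cons_self
          · exact List.mem_cons_of_mem _ (g3 r' hr' hA)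
        · intro r' hr' hA
          exact List.mem_cons_of_mem _ (g4 r' hr' hA)
        · intro r' hr'
          rcases List.mem_cons.mp hr' with rfl | hr'
          · exact Or.inl List.mem_cons_self
          · rcases g5 r' hr' with h | h
            · exact Or.inl (List.mem_cons_of_mem _ h)
            · exact Or.inr h
      · rw [tr_cons_cross A r l₁' hx] at ht
        have hpA : c₁'.p ∈ A := by
          by_contra hcon
          apply hx
          rw [h1, h3]
          exact iff_of_false hc₁ hcon
        obtain ⟨c₂', l₂', k1, k2, k3, k4, k5, k6, k7, k8, k9⟩ :=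
          forward A h₂ (r.q', r.p') (tr A l₁') hc₂ ht.symm
        have hq : c₂'.q = c₁'.q := by rw [k2, ← h2]
        have hp : c₂'.p = c₁'.p := by rw [k3, ← h3]
        obtain ⟨l, f, g1, g2, g3, g4, g5⟩ := ih Aᶜ c₂' c₁' f₂ f₁ l₂' l₁'
          (by simp only [List.length_cons] at hn; omega) k1 hr (fun h => h k4) (fun h => h hpA)
          (by rw [tr_compl, tr_compl, k5])
        have hconf : (⟨c₂'.q, c₂'.p, mixTape Aᶜ c₂'.tape c₁'.tape⟩ : Config M) =
            ⟨c₁'.q, c₁'.p, mixTape A c₁'.tape c₂.tape⟩ := by
          rw [hq, hp, mixTape_compl]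
          congr 1
          funext z
          unfold mixTape
          by_cases hz : z ∈ A
          · rw [if_pos hz, if_pos hz, k6 z hz]
          · rw [if_neg hz, if_neg hz]
        rw [hconf] at g1
        refine ⟨r :: l, f, Run.cons (hstep _) g1, g2.symm, ?_, ?_, ?_⟩
        · intro r' hr' hA
          rcases List.mem_cons.mp hr' with rfl | hr'
          · exact List.mem_cons_self
          · exact List.mem_cons_of_mem _ (g4 r' hr' hA)
        · intro r' hr' hA
          exact List.mem_cons_of_mem _ (g3 r' (k7 r' hr' hA) (fun h => h hA))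
        · intro r' hr'
          rcases List.mem_cons.mp hr' with rfl | hr'
          · exact Or.inl List.mem_cons_self
          · rcases g5 r' hr' with h | h
            · exact Or.inr (k8 r' h)
            · exact Or.inl (List.mem_cons_of_mem _ h)

/-- Cut and paste, for runs which start with the same state and position. -/
theorem mix (A : Set ℤ) (c₁ c₂ f₁ f₂ : Config M) (l₁ l₂ : List (Rec M))
    (h₁ : Run c₁ l₁ f₁) (h₂ : Run c₂ l₂ f₂) (hq : c₁.q = c₂.q) (hp : c₁.p = c₂.p)
    (ht : tr A l₁ = tr A l₂) :
    ∃ (l : List (Rec M)) (f : Config M),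
      Run ⟨c₁.q, c₁.p, mixTape A c₁.tape c₂.tape⟩ l f ∧ (f.q = f₁.q ∨ f.q = f₂.q) ∧
      (∀ r ∈ l₁, r.p ∉ A → r ∈ l) ∧ (∀ r ∈ l, r ∈ l₁ ∨ r ∈ l₂) := by
  by_cases h : c₁.p ∈ A
  · obtain ⟨l, f, g1, g2, g3, g4, g5⟩ := mix_aux (l₂.length + l₁.length) Aᶜ c₂ c₁ f₂ f₁ l₂ l₁
      le_rfl h₂ h₁ (fun h' => h' (hp ▸ h)) (fun h' => h' h) (by rw [tr_compl, tr_compl, ht])
    rw [← hq, ← hp, mixTape_compl] at g1
    exact ⟨l, f, g1, g2.symm, fun r hr hA => g4 r hr hA, fun r hr => (g5 r hr).symm⟩
  · obtain ⟨l, f, g1, g2, g3, g4, g5⟩ := mix_aux (l₁.length + l₂.length) A c₁ c₂ f₁ f₂ l₁ l₂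
      le_rfl h₁ h₂ h (hp ▸ h) ht
    exact ⟨l, f, g1, g2, g3, g5⟩

end Mix

end Pool.Agent.V7H15.SSE
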